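import Pool.Agent.P.MP_f72ff1_an.Defs

/-!
# Measure of a thin band of the sphere
-/

open MeasureTheory Metric Set
open scoped ENNReal NNReal ContDiff Pointwise

namespace Pool.Agent.P.MP_f72ff1_an

variable {d : ℕ}

lemma norm_sq_split (w : EuclideanSpace ℝ (Fin d ⊕ Fin d)) :
    ‖w‖ ^ 2 = ‖fstPart w‖ ^ 2 + ‖sndPart w‖ ^ 2 := by
  simp [EuclideanSpace.norm_sq_eq, Fintype.sum_sum_type, fstPart, sndPart]

lemma fstPart_smul (c : ℝ) (w : EuclideanSpace ℝ (Fin d ⊕ Fin d)) :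
    fstPart (c • w) = c • fstPart w := by
  ext i; simp [fstPart]

lemma continuous_fstPart : Continuous (fstPart (d := d)) := by
  unfold fstPart; fun_prop

lemma continuous_sndPart : Continuous (sndPart (d := d)) := by
  unfold sndPart; fun_prop

lemma measurePreserving_split :
    MeasurePreserving (fun w : EuclideanSpace ℝ (Fin d ⊕ Fin d) => (fstPart w, sndPart w))
      volume volume := by
  have h1 := (PiLp.sumPiLpEquivProdLpPiLp (𝕜 := ℝ) 2
    (fun _ : Fin d ⊕ Fin d => ℝ)).measurePreserving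
  have h2 := WithLp.volume_preserving_ofLp (EuclideanSpace ℝ (Fin d)) (EuclideanSpace ℝ (Fin d))
  exact h2.comp h1

/-- The reference annulus. -/
def ann (d : ℕ) : Set (EuclideanSpace ℝ (Fin d)) := ball 0 (1 / 2) \ closedBall 0 (1 / 4)

lemma isOpen_ann : IsOpen (ann d) := isOpen_ball.sdiff isClosed_closedBall

lemma ann_nonempty (hd : 1 ≤ d) : (ann d).Nonempty := by
  refine ⟨EuclideanSpace.single ⟨0, hd⟩ (1 / 3 : ℝ), ?_⟩
  simp [ann]
  norm_num

lemma vol_ann_pos (hd : 1 ≤ d) : volume (ann d) ≠ 0 :=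
  isOpen_ann.measure_ne_zero _ (ann_nonempty hd)

lemma vol_ann_lt_top : volume (ann d) ≠ ⊤ :=
  ((measure_mono sdiff_subset).trans_lt measure_ball_lt_top).ne

lemma abs_sub_le_of_sq {m s y u z δ : ℝ} (hm : 0 ≤ m) (hs : 0 < s) (hy : 0 ≤ y) (hu : 0 ≤ u)
    (h1 : m ^ 2 = y ^ 2 + z ^ 2) (h2 : s ^ 2 = u ^ 2 + z ^ 2) (h3 : |y - u| ≤ δ) :
    |m - s| ≤ δ := by
  have hym : y ≤ m := by nlinarith [sq_nonneg z]
  have hus : u ≤ s := by nlinarith [sq_nonneg z]
  have hδ : 0 ≤ δ := (abs_nonneg _).trans h3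
  have key : |m - s| * (m + s) ≤ δ * (m + s) := by
    have e1 : |m - s| * (m + s) = |y - u| * (y + u) := by
      rw [← abs_of_nonneg (by positivity : 0 ≤ m + s), ← abs_of_nonneg (by positivity : 0 ≤ y + u),
        ← abs_mul, ← abs_mul]
      congr 1
      nlinarith
    rw [e1]
    exact mul_le_mul h3 (by linarith) (by positivity) hδ
  exact le_of_mul_le_mul_right key (by positivity)

/-- Lower bound for the Lebesgue measure of the cone over a thin band of the sphere. -/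
lemma cone_lower (a : EuclideanSpace ℝ (Fin d)) (ha : ‖a‖ ≤ 1 / 2) (ρ : ℝ) (hρ : 0 < ρ)
    (hρ1 : ρ ≤ 1) :
    volume (ann d) * volume (closedBall (0 : EuclideanSpace ℝ (Fin d)) (ρ / 6)) ≤
      volume (Ioo (0 : ℝ) 1 • ((↑) '' {w : sphere (0 : EuclideanSpace ℝ (Fin d ⊕ Fin d)) 1 |
        ‖fstPart w.1 - a‖ ≤ ρ} : Set (EuclideanSpace ℝ (Fin d ⊕ Fin d)))) := by
  set κ : ℝ := √(1 - ‖a‖ ^ 2) with hκ
  have ha0 := norm_nonneg a
  have hκsq : κ ^ 2 = 1 - ‖a‖ ^ 2 := Real.sq_sqrt (by nlinarith)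
  have hκ0 : 0 ≤ κ := Real.sqrt_nonneg _
  have hκlow : 5 / 6 ≤ κ := by nlinarith
  let T : Set (EuclideanSpace ℝ (Fin d) × EuclideanSpace ℝ (Fin d)) :=
    {p | p.2 ∈ ann d ∧ ‖p.1 - (‖p.2‖ / κ) • a‖ ≤ ρ / 6}
  have hT : MeasurableSet T := by
    refine (isOpen_ann.measurableSet.preimage measurable_snd).inter ?_
    have hc : Continuous fun p : EuclideanSpace ℝ (Fin d) × EuclideanSpace ℝ (Fin d) =>
        ‖p.1 - (‖p.2‖ / κ) • a‖ := by fun_prop
    exact (isClosed_le hc continuous_const).measurableSet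
  have hvol : volume T = volume (ann d) *
      volume (closedBall (0 : EuclideanSpace ℝ (Fin d)) (ρ / 6)) := by
    rw [Measure.volume_eq_prod, Measure.prod_apply_symm hT]
    have : ∀ z : EuclideanSpace ℝ (Fin d), volume ((fun y => (y, z)) ⁻¹' T) =
        (ann d).indicator (fun _ =>
          volume (closedBall (0 : EuclideanSpace ℝ (Fin d)) (ρ / 6))) z := by
      intro z
      by_cases hz : z ∈ ann d
      · rw [indicator_of_mem hz]
        have : (fun y => (y, z)) ⁻¹' T = closedBall ((‖z‖ / κ) • a) (ρ / 6) := by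
          ext y; simp [T, hz, dist_eq_norm]
        rw [this, Measure.addHaar_closedBall_center]
      · rw [indicator_of_notMem hz]
        have : (fun y => (y, z)) ⁻¹' T = ∅ := by
          ext y; simp [T, hz]
        rw [this, measure_empty]
    simp_rw [this]
    rw [lintegral_indicator_const isOpen_ann.measurableSet, mul_comm]
  rw [← hvol, ← measurePreserving_split.measure_preimage hT.nullMeasurableSet]
  apply measure_mono
  intro w hw
  obtain ⟨hz, hy⟩ := hw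
  simp only [ann, mem_sdiff, mem_ball_zero_iff, mem_closedBall_zero_iff, not_le] at hz hy
  obtain ⟨hz1, hz2⟩ := hz
  set s : ℝ := ‖sndPart w‖ / κ with hs
  have hκpos : 0 < κ := by linarith
  have hs0 : 0 < s := div_pos (by linarith) hκpos
  have hsκ : s * κ = ‖sndPart w‖ := by rw [hs]; field_simp
  have hs1 : s ≤ 3 / 5 := by
    rw [hs, div_le_iff₀ hκpos]; linarith
  have hsq : s ^ 2 = ‖s • a‖ ^ 2 + ‖sndPart w‖ ^ 2 := by
    rw [norm_smul, Real.norm_of_nonneg hs0.le, ← hsκ, mul_pow, mul_pow, hκsq]; ring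
  have hms : |‖w‖ - s| ≤ ρ / 6 :=
    abs_sub_le_of_sq (norm_nonneg w) hs0 (norm_nonneg _) (norm_nonneg _) (norm_sq_split w) hsq
      ((abs_norm_sub_norm_le _ _).trans hy)
  have hm1 : 1 / 4 < ‖w‖ := by
    have := norm_sq_split w
    have h2 : ‖sndPart w‖ ≤ ‖w‖ := by
      nlinarith [sq_nonneg ‖fstPart w‖, norm_nonneg w, norm_nonneg (sndPart w)]
    linarith
  have hm0 : 0 < ‖w‖ := by linarith
  have hm2 : ‖w‖ < 1 := by
    have := (abs_le.1 hms).2
    linarith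
  refine ⟨‖w‖, ⟨hm0, hm2⟩, ‖w‖⁻¹ • w, ⟨⟨‖w‖⁻¹ • w, ?_⟩, ?_, rfl⟩, ?_⟩
  · simp [norm_smul, hm0.ne']
  · show ‖fstPart (‖w‖⁻¹ • w) - a‖ ≤ ρ
    have e : fstPart (‖w‖⁻¹ • w) - a = ‖w‖⁻¹ • ((fstPart w - s • a) + (s - ‖w‖) • a) := by
      rw [fstPart_smul, sub_smul, sub_add_sub_cancel, smul_sub, smul_smul,
        inv_mul_cancel₀ hm0.ne', one_smul]
    rw [e, norm_smul, norm_inv, norm_norm, inv_mul_le_iff₀ hm0]
    have h3 : ‖(s - ‖w‖) • a‖ ≤ ρ / 6 * (1 / 2) := by
      rw [norm_smul, Real.norm_eq_abs, abs_sub_comm]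
      exact mul_le_mul hms ha ha0 (by positivity)
    have h4 := norm_add_le (fstPart w - s • a) ((s - ‖w‖) • a)
    nlinarith
  · simp [smul_smul, hm0.ne']

end Pool.Agent.P.MP_f72ff1_an
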