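import Mathlib

/-!
# Definitions: the lacunary bilinear spherical maximal function
-/

open MeasureTheory Metric Set
open scoped ENNReal ContDiff

namespace Pool.Agent.P.MP_f72ff1_an

/-- The first `d` coordinates `y` of a point `(y, z)` of `ℝ^{2d}`. -/
def fstPart {d : ℕ} (w : EuclideanSpace ℝ (Fin d ⊕ Fin d)) : EuclideanSpace ℝ (Fin d) :=
  WithLp.toLp 2 fun i => w (Sum.inl i)

/-- The last `d` coordinates `z` of a point `(y, z)` of `ℝ^{2d}`. -/
def sndPart {d : ℕ} (w : EuclideanSpace ℝ (Fin d ⊕ Fin d)) : EuclideanSpace ℝ (Fin d) :=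
  WithLp.toLp 2 fun i => w (Sum.inr i)

/-- The normalised surface measure on the unit sphere of a Euclidean space `W`: the surface measure
induced by Lebesgue measure in polar coordinates, divided by its total mass. -/
noncomputable def unitSphereMeasure (W : Type) [NormedAddCommGroup W] [InnerProductSpace ℝ W]
    [FiniteDimensional ℝ W] [MeasurableSpace W] [BorelSpace W] : Measure (sphere (0 : W) 1) :=
  ((volume : Measure W).toSphere univ)⁻¹ • (volume : Measure W).toSphere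

/-- The normalised surface measure `σ` on the unit sphere `S^{2d-1}` of `ℝ^{2d}`. -/
noncomputable def sphereMeasure (d : ℕ) :
    Measure (sphere (0 : EuclideanSpace ℝ (Fin d ⊕ Fin d)) 1) :=
  unitSphereMeasure (EuclideanSpace ℝ (Fin d ⊕ Fin d))

/-- The bilinear spherical average `A_t(f,g)(x) = ∫ f(x - t y) g(x - t z) dσ(y,z)`. -/
noncomputable def sphAvg {d : ℕ} (t : ℝ) (f g : EuclideanSpace ℝ (Fin d) → ℝ)
    (x : EuclideanSpace ℝ (Fin d)) : ℝ :=
  ∫ w, f (x - t • fstPart w.1) * g (x - t • sndPart w.1) ∂(sphereMeasure d)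

/-- The lacunary maximal function `M_lac(f,g)(x) = sup_{l ∈ ℤ} |A_{2^l}(f,g)(x)|`,
with values in `[0, ∞]`. -/
noncomputable def lacMax {d : ℕ} (f g : EuclideanSpace ℝ (Fin d) → ℝ)
    (x : EuclideanSpace ℝ (Fin d)) : ℝ≥0∞ :=
  ⨆ l : ℤ, ‖sphAvg ((2 : ℝ) ^ l) f g x‖ₑ

/-- The `L^p` (quasi-)norm `(∫ F^p)^{1/p}` of a function `F : ℝ^d → [0, ∞]`, for Lebesgue measure
and a real exponent `p > 0`. -/
noncomputable def lpNorm {d : ℕ} (p : ℝ) (F : EuclideanSpace ℝ (Fin d) → ℝ≥0∞) : ℝ≥0∞ :=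
  (∫⁻ x, F x ^ p) ^ (1 / p)

/-- Test functions: smooth with compact support. -/
def IsTest {d : ℕ} (f : EuclideanSpace ℝ (Fin d) → ℝ) : Prop :=
  ContDiff ℝ ∞ f ∧ HasCompactSupport f

end Pool.Agent.P.MP_f72ff1_an
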