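import Pool.Agent.P.MP_f72ff1_an.Cone

/-!
# The counterexample on the edge `p = 1`
-/

open MeasureTheory Metric Set
open scoped ENNReal NNReal ContDiff Pointwise

namespace Pool.Agent.P.MP_f72ff1_an

variable {d : ℕ}

lemma toSphere_univ_ne_top :
    (volume : Measure (EuclideanSpace ℝ (Fin d ⊕ Fin d))).toSphere univ ≠ ⊤ :=
  measure_ne_top _ _

lemma toSphere_univ_ne_zero (hd : 1 ≤ d) :
    (volume : Measure (EuclideanSpace ℝ (Fin d ⊕ Fin d))).toSphere univ ≠ 0 := by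
  rw [Ne, Measure.measure_univ_eq_zero, Measure.toSphere_eq_zero_iff_finrank]
  simp
  omega

lemma isFiniteMeasure_sphereMeasure (hd : 1 ≤ d) : IsFiniteMeasure (sphereMeasure d) := by
  refine ⟨?_⟩
  rw [sphereMeasure, unitSphereMeasure, Measure.smul_apply, smul_eq_mul]
  exact ENNReal.mul_lt_top (ENNReal.inv_lt_top.2 (toSphere_univ_ne_zero hd).bot_lt)
    toSphere_univ_ne_top.lt_top

/-- The normalised surface measure of a band of width `ρ` is at least `c ρ^d`. -/
lemma band_lower (hd : 1 ≤ d) : ∃ c : ℝ≥0∞, c ≠ 0 ∧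
    ∀ a : EuclideanSpace ℝ (Fin d), ‖a‖ ≤ 1 / 2 → ∀ ρ : ℝ, 0 < ρ → ρ ≤ 1 →
      c * ENNReal.ofReal (ρ ^ d) ≤ sphereMeasure d {w | ‖fstPart w.1 - a‖ ≤ ρ} := by
  refine ⟨((volume : Measure (EuclideanSpace ℝ (Fin d ⊕ Fin d))).toSphere univ)⁻¹ *
    (volume (ann d) * (ENNReal.ofReal ((1 / 6 : ℝ) ^ d) *
      volume (ball (0 : EuclideanSpace ℝ (Fin d)) 1))), ?_, ?_⟩
  · refine mul_ne_zero (ENNReal.inv_ne_zero.2 toSphere_univ_ne_top) (mul_ne_zero (vol_ann_pos hd)
      (mul_ne_zero ?_ (measure_ball_pos _ _ one_pos).ne'))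
    simp
  intro a ha ρ hρ hρ1
  have hS : MeasurableSet {w : sphere (0 : EuclideanSpace ℝ (Fin d ⊕ Fin d)) 1 |
      ‖fstPart w.1 - a‖ ≤ ρ} := by
    have hc : Continuous fun w : sphere (0 : EuclideanSpace ℝ (Fin d ⊕ Fin d)) 1 =>
        ‖fstPart w.1 - a‖ :=
      ((continuous_fstPart.comp continuous_subtype_val).sub continuous_const).norm
    exact (isClosed_le hc continuous_const).measurableSet
  rw [sphereMeasure, unitSphereMeasure, Measure.smul_apply, smul_eq_mul, mul_assoc]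
  gcongr
  rw [Measure.toSphere_apply' _ hS]
  have h1 := cone_lower a ha ρ hρ hρ1
  rw [Measure.addHaar_closedBall _ _ (by positivity : 0 ≤ ρ / 6)] at h1
  have h2 : (1 : ℝ≥0∞) ≤ (Module.finrank ℝ (EuclideanSpace ℝ (Fin d ⊕ Fin d)) : ℕ) := by
    simp only [finrank_euclideanSpace, Fintype.card_sum, Fintype.card_fin, Nat.one_le_cast]
    omega
  refine le_trans ?_ (le_mul_of_one_le_left' h2)
  refine le_trans (le_of_eq ?_) h1
  rw [finrank_euclideanSpace, Fintype.card_fin, div_eq_mul_one_div ρ 6, mul_pow,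
    ENNReal.ofReal_mul (by positivity)]
  ring

/-- Pointwise lower bound for a single average. -/
lemma avg_lower (hd : 1 ≤ d) {c : ℝ≥0∞}
    (hc : ∀ a : EuclideanSpace ℝ (Fin d), ‖a‖ ≤ 1 / 2 → ∀ ρ : ℝ, 0 < ρ → ρ ≤ 1 →
      c * ENNReal.ofReal (ρ ^ d) ≤ sphereMeasure d {w | ‖fstPart w.1 - a‖ ≤ ρ})
    {f g : EuclideanSpace ℝ (Fin d) → ℝ} (hf : Continuous f) (hg : Continuous g)
    (hf0 : ∀ x, 0 ≤ f x) (hg0 : ∀ x, 0 ≤ g x) (hf1 : ∀ x, ‖x‖ ≤ 1 → 1 ≤ f x)
    {t γ : ℝ} (ht : 1 ≤ t) (hg1 : ∀ x, ‖x‖ ≤ 2 * t → γ ≤ g x)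
    {x : EuclideanSpace ℝ (Fin d)} (hx : ‖x‖ ≤ t / 2) :
    ENNReal.ofReal γ * (c * ENNReal.ofReal (t⁻¹ ^ d)) ≤ ‖sphAvg t f g x‖ₑ := by
  have := isFiniteMeasure_sphereMeasure hd
  have ht0 : 0 < t := by linarith
  set F : sphere (0 : EuclideanSpace ℝ (Fin d ⊕ Fin d)) 1 → ℝ :=
    fun w => f (x - t • fstPart w.1) * g (x - t • sndPart w.1) with hF
  have hFc : Continuous F := by
    have h1 := continuous_fstPart (d := d)
    have h2 := continuous_sndPart (d := d)
    fun_prop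
  have hF0 : ∀ w, 0 ≤ F w := fun w => mul_nonneg (hf0 _) (hg0 _)
  have hFi : Integrable F (sphereMeasure d) := by
    rw [← integrableOn_univ]
    exact hFc.continuousOn.integrableOn_compact isCompact_univ
  have hA : sphAvg t f g x = ∫ w, F w ∂(sphereMeasure d) := rfl
  rw [hA, Real.enorm_of_nonneg (integral_nonneg hF0),
    ofReal_integral_eq_lintegral_ofReal hFi (Filter.Eventually.of_forall hF0)]
  set S : Set (sphere (0 : EuclideanSpace ℝ (Fin d ⊕ Fin d)) 1) :=
    {w | ‖fstPart w.1 - t⁻¹ • x‖ ≤ t⁻¹} with hS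
  have hSm : MeasurableSet S := by
    have hc : Continuous fun w : sphere (0 : EuclideanSpace ℝ (Fin d ⊕ Fin d)) 1 =>
        ‖fstPart w.1 - t⁻¹ • x‖ :=
      ((continuous_fstPart.comp continuous_subtype_val).sub continuous_const).norm
    exact (isClosed_le hc continuous_const).measurableSet
  have h1 : c * ENNReal.ofReal (t⁻¹ ^ d) ≤ sphereMeasure d S := by
    refine hc (t⁻¹ • x) ?_ t⁻¹ (by positivity) (inv_le_one_of_one_le₀ ht)
    rw [norm_smul, norm_inv, Real.norm_of_nonneg ht0.le, inv_mul_le_iff₀ ht0]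
    linarith
  calc ENNReal.ofReal γ * (c * ENNReal.ofReal (t⁻¹ ^ d))
      ≤ ENNReal.ofReal γ * sphereMeasure d S := by gcongr
    _ = ∫⁻ w, S.indicator (fun _ => ENNReal.ofReal γ) w ∂(sphereMeasure d) := by
        rw [lintegral_indicator_const hSm]
    _ ≤ ∫⁻ w, ENNReal.ofReal (F w) ∂(sphereMeasure d) := by
        refine lintegral_mono fun w => ?_
        by_cases hw : w ∈ S
        · rw [indicator_of_mem hw]
          refine ENNReal.ofReal_le_ofReal ?_
          have e1 : 1 ≤ f (x - t • fstPart w.1) := by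
            apply hf1
            have e : x - t • fstPart w.1 = -(t • (fstPart w.1 - t⁻¹ • x)) := by
              rw [smul_sub, smul_smul, mul_inv_cancel₀ ht0.ne', one_smul, neg_sub]
            rw [e, norm_neg, norm_smul, Real.norm_of_nonneg ht0.le]
            calc t * ‖fstPart w.1 - t⁻¹ • x‖ ≤ t * t⁻¹ := by
                  have : ‖fstPart w.1 - t⁻¹ • x‖ ≤ t⁻¹ := hw
                  gcongr
              _ = 1 := mul_inv_cancel₀ ht0.ne'
          have e2 : γ ≤ g (x - t • sndPart w.1) := by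
            apply hg1
            have hw1 : ‖w.1‖ = 1 := by simp
            have h3 := norm_sq_split w.1
            have h4 : ‖sndPart w.1‖ ≤ 1 := by
              rw [hw1] at h3
              nlinarith [sq_nonneg ‖fstPart w.1‖, norm_nonneg (sndPart w.1)]
            have h5 := norm_sub_le x (t • sndPart w.1)
            rw [norm_smul, Real.norm_of_nonneg ht0.le] at h5
            nlinarith
          calc γ ≤ g (x - t • sndPart w.1) := e2
            _ ≤ F w := le_mul_of_one_le_left (hg0 _) e1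
        · rw [indicator_of_notMem hw]
          exact zero_le

/-- A smooth bump equal to one on the closed ball of radius `R`, supported in the ball of
radius `2R`. -/
noncomputable def bump (d : ℕ) (R : ℝ) (hR : 0 < R) :
    ContDiffBump (0 : EuclideanSpace ℝ (Fin d)) :=
  ⟨R, 2 * R, hR, by linarith⟩

lemma eLpNorm_bump_le (R : ℝ) (hR : 0 < R) {q : ℝ} (hq : 1 ≤ q) :
    eLpNorm (bump d R hR) (ENNReal.ofReal q) volume ≤
      ENNReal.ofReal (((2 * R) ^ d) ^ (1 / q)) *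
        volume (ball (0 : EuclideanSpace ℝ (Fin d)) 1) ^ (1 / q) := by
  have hq0 : 0 < q := by linarith
  have h1 : eLpNorm (bump d R hR) (ENNReal.ofReal q) volume ≤
      eLpNorm ((ball (0 : EuclideanSpace ℝ (Fin d)) (2 * R)).indicator fun _ => (1 : ℝ))
        (ENNReal.ofReal q) volume := by
    refine eLpNorm_mono_real fun x => ?_
    rw [Real.norm_of_nonneg (bump d R hR).nonneg]
    by_cases hx : x ∈ ball (0 : EuclideanSpace ℝ (Fin d)) (2 * R)
    · rw [indicator_of_mem hx]; exact (bump d R hR).le_one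
    · rw [indicator_of_notMem hx]
      refine le_of_eq ((bump d R hR).zero_of_le_dist ?_)
      simpa [bump] using hx
  refine h1.trans (le_of_eq ?_)
  rw [eLpNorm_indicator_const measurableSet_ball (by simpa using hq0) ENNReal.ofReal_ne_top,
    ENNReal.toReal_ofReal hq0.le, Measure.addHaar_ball_of_pos _ _ (by positivity : 0 < 2 * R),
    finrank_euclideanSpace, Fintype.card_fin, ENNReal.mul_rpow_of_nonneg _ _ (by positivity),
    ENNReal.ofReal_rpow_of_nonneg (by positivity) (by positivity)]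
  simp

/-- The coefficient `2^{-kd/q}`. -/
noncomputable def coef (d : ℕ) (q : ℝ) (k : ℕ) : ℝ := ((((2 : ℝ) ^ k) ^ d) ^ (1 / q))⁻¹

lemma coef_pos (q : ℝ) (k : ℕ) : 0 < coef d q k := by
  unfold coef; positivity

/-- The second test function: a sum of `L^q`-normalised bumps at the scales `2^k`, `k < N`. -/
noncomputable def gfun (d : ℕ) (q : ℝ) (N : ℕ) : EuclideanSpace ℝ (Fin d) → ℝ :=
  ∑ k ∈ Finset.range N, coef d q k •
    (bump d (2 * 2 ^ k) (by positivity) : EuclideanSpace ℝ (Fin d) → ℝ)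

lemma gfun_contDiff (q : ℝ) (N : ℕ) : ContDiff ℝ ∞ (gfun d q N) := by
  have : gfun d q N = fun x => ∑ k ∈ Finset.range N, coef d q k •
      (bump d (2 * 2 ^ k) (by positivity) : EuclideanSpace ℝ (Fin d) → ℝ) x := by
    ext x; simp [gfun]
  rw [this]
  exact ContDiff.sum fun k _ => (ContDiffBump.contDiff _).const_smul _

lemma gfun_hasCompactSupport (q : ℝ) (N : ℕ) : HasCompactSupport (gfun d q N) := by
  unfold gfun
  induction N with
  | zero => simpa using HasCompactSupport.zero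
  | succ n ih =>
    rw [Finset.sum_range_succ]
    exact ih.add (HasCompactSupport.smul_left (f := fun _ => coef d q n)
      (ContDiffBump.hasCompactSupport _))

lemma gfun_nonneg (q : ℝ) (N : ℕ) (x : EuclideanSpace ℝ (Fin d)) : 0 ≤ gfun d q N x := by
  simp only [gfun, Finset.sum_apply, Pi.smul_apply, smul_eq_mul]
  exact Finset.sum_nonneg fun k _ => mul_nonneg (coef_pos q k).le (ContDiffBump.nonneg _)

lemma gfun_ge (q : ℝ) {N k : ℕ} (hk : k < N) (x : EuclideanSpace ℝ (Fin d))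
    (hx : ‖x‖ ≤ 2 * 2 ^ k) : coef d q k ≤ gfun d q N x := by
  simp only [gfun, Finset.sum_apply, Pi.smul_apply, smul_eq_mul]
  refine le_trans ?_ (Finset.single_le_sum (f := fun k => coef d q k *
    (bump d (2 * 2 ^ k) (by positivity) : EuclideanSpace ℝ (Fin d) → ℝ) x)
    (fun k _ => mul_nonneg (coef_pos q k).le (ContDiffBump.nonneg _)) (Finset.mem_range.2 hk))
  rw [ContDiffBump.one_of_mem_closedBall _ (by simpa [bump] using hx), mul_one]

lemma eLpNorm_gfun_le {q : ℝ} (hq : 1 ≤ q) (N : ℕ) :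
    eLpNorm (gfun d q N) (ENNReal.ofReal q) volume ≤
      N * (ENNReal.ofReal (((4 : ℝ) ^ d) ^ (1 / q)) *
        volume (ball (0 : EuclideanSpace ℝ (Fin d)) 1) ^ (1 / q)) := by
  unfold gfun
  refine (eLpNorm_sum_le (fun k _ => ?_) (by simpa using hq)).trans ?_
  · exact ((ContDiffBump.continuous _).const_smul _).aestronglyMeasurable
  · refine (Finset.sum_le_card_nsmul _ _ (ENNReal.ofReal (((4 : ℝ) ^ d) ^ (1 / q)) *
        volume (ball (0 : EuclideanSpace ℝ (Fin d)) 1) ^ (1 / q)) fun k _ => ?_).trans (by simp)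
    rw [eLpNorm_const_smul]
    refine (mul_le_mul_right (eLpNorm_bump_le _ _ hq) _).trans (le_of_eq ?_)
    rw [← mul_assoc, Real.enorm_of_nonneg (coef_pos q k).le,
      ← ENNReal.ofReal_mul (coef_pos q k).le]
    congr 2
    have e : (2 * (2 * (2 : ℝ) ^ k)) ^ d = ((2 : ℝ) ^ k) ^ d * 4 ^ d := by
      rw [← mul_pow]; congr 1; ring
    rw [e, Real.mul_rpow (by positivity) (by positivity), coef, ← mul_assoc,
      inv_mul_cancel₀ (by positivity), one_mul]

/-- The dyadic annuli. -/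
def annK (d k : ℕ) : Set (EuclideanSpace ℝ (Fin d)) := ((2 : ℝ) ^ k) • ann d

lemma mem_annK {k : ℕ} {x : EuclideanSpace ℝ (Fin d)} (hx : x ∈ annK d k) :
    2 ^ k / 4 < ‖x‖ ∧ ‖x‖ < 2 ^ k / 2 := by
  obtain ⟨y, hy, rfl⟩ := hx
  simp only [ann, mem_sdiff, mem_ball_zero_iff, mem_closedBall_zero_iff, not_le] at hy
  have h2 : (0 : ℝ) < 2 ^ k := by positivity
  simp only [norm_smul, Real.norm_of_nonneg h2.le]
  constructor <;> nlinarith [hy.1, hy.2]

lemma measurableSet_annK (k : ℕ) : MeasurableSet (annK d k) :=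
  (isOpen_ann.smul₀ (by positivity : ((2 : ℝ) ^ k) ≠ 0)).measurableSet

lemma volume_annK (k : ℕ) :
    volume (annK d k) = ENNReal.ofReal (((2 : ℝ) ^ k) ^ d) * volume (ann d) := by
  rw [annK, Measure.addHaar_smul, finrank_euclideanSpace, Fintype.card_fin,
    abs_of_nonneg (by positivity)]

lemma annK_disjoint : Pairwise (Function.onFun Disjoint (annK d)) := by
  have key : ∀ i j : ℕ, i < j → Disjoint (annK d i) (annK d j) := by
    intro i j hij
    rw [Set.disjoint_left]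
    intro x hi hj
    have h1 := (mem_annK hi).2
    have h2 := (mem_annK hj).1
    have h3 : (2 : ℝ) ^ (i + 1) ≤ 2 ^ j := pow_le_pow_right₀ (by norm_num) hij
    rw [pow_succ] at h3
    linarith
  intro i j hij
  rcases lt_or_gt_of_ne hij with h | h
  · exact key i j h
  · exact (key j i h).symm

/-- Lower bound for the `L^r` quasi-norm of the maximal function of the test pair. -/
lemma lintegral_lacMax_ge (hd : 1 ≤ d) {q : ℝ} (hq : 1 ≤ q) {c : ℝ≥0∞}
    (hc : ∀ a : EuclideanSpace ℝ (Fin d), ‖a‖ ≤ 1 / 2 → ∀ ρ : ℝ, 0 < ρ → ρ ≤ 1 →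
      c * ENNReal.ofReal (ρ ^ d) ≤ sphereMeasure d {w | ‖fstPart w.1 - a‖ ≤ ρ}) (N : ℕ) :
    N * (c ^ (q / (q + 1)) * volume (ann d)) ≤
      ∫⁻ x, lacMax (bump d 1 one_pos) (gfun d q N) x ^ (q / (q + 1)) := by
  have hq0 : 0 < q := by linarith
  have hr0 : 0 < q / (q + 1) := by positivity
  refine le_trans ?_ (setLIntegral_le_lintegral (⋃ k ∈ Finset.range N, annK d k) _)
  rw [lintegral_biUnion_finset (fun i _ j _ hij => annK_disjoint hij)
    (fun k _ => measurableSet_annK k)]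
  refine le_trans (by simp) (Finset.card_nsmul_le_sum (Finset.range N) _
    (c ^ (q / (q + 1)) * volume (ann d)) fun k hk => ?_)
  have hT : (0 : ℝ) < ((2 : ℝ) ^ k) ^ d := by positivity
  have hpt : ∀ x ∈ annK d k, c ^ (q / (q + 1)) * ENNReal.ofReal ((((2 : ℝ) ^ k) ^ d)⁻¹) ≤
      lacMax (bump d 1 one_pos) (gfun d q N) x ^ (q / (q + 1)) := by
    intro x hx
    have h1 := avg_lower hd hc (f := bump d 1 one_pos) (g := gfun d q N)
      (ContDiffBump.continuous _) (gfun_contDiff q N).continuous (fun _ => ContDiffBump.nonneg _)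
      (gfun_nonneg q N)
      (fun y hy => (ContDiffBump.one_of_mem_closedBall _ (by simpa [bump] using hy)).ge)
      (t := (2 : ℝ) ^ k) (one_le_pow₀ (by norm_num))
      (gfun_ge q (Finset.mem_range.1 hk)) (mem_annK hx).2.le
    have h2 : ‖sphAvg ((2 : ℝ) ^ k) (bump d 1 one_pos) (gfun d q N) x‖ₑ ≤
        lacMax (bump d 1 one_pos) (gfun d q N) x := by
      have := le_iSup (fun l : ℤ =>
        ‖sphAvg ((2 : ℝ) ^ l) (bump d 1 one_pos) (gfun d q N) x‖ₑ) (k : ℤ)
      rwa [zpow_natCast] at this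
    refine le_trans (le_of_eq ?_) (ENNReal.rpow_le_rpow (h1.trans h2) hr0.le)
    rw [mul_left_comm, ENNReal.mul_rpow_of_nonneg _ _ hr0.le,
      ← ENNReal.ofReal_mul (coef_pos q k).le,
      ENNReal.ofReal_rpow_of_nonneg (mul_nonneg (coef_pos q k).le (by positivity)) hr0.le]
    congr 2
    rw [coef, inv_pow, ← mul_inv, ← Real.rpow_add_one hT.ne', Real.inv_rpow (by positivity),
      ← Real.rpow_mul hT.le]
    have : (1 / q + 1) * (q / (q + 1)) = 1 := by field_simp; ring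
    rw [this, Real.rpow_one]
  calc c ^ (q / (q + 1)) * volume (ann d)
      = c ^ (q / (q + 1)) * ENNReal.ofReal ((((2 : ℝ) ^ k) ^ d)⁻¹) * volume (annK d k) := by
        rw [volume_annK, mul_assoc, ← mul_assoc (ENNReal.ofReal _),
          ← ENNReal.ofReal_mul (by positivity), inv_mul_cancel₀ hT.ne', ENNReal.ofReal_one, one_mul]
    _ = ∫⁻ _ in annK d k, c ^ (q / (q + 1)) * ENNReal.ofReal ((((2 : ℝ) ^ k) ^ d)⁻¹) := by
        rw [setLIntegral_const]
    _ ≤ ∫⁻ x in annK d k, lacMax (bump d 1 one_pos) (gfun d q N) x ^ (q / (q + 1)) :=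
        setLIntegral_mono' (measurableSet_annK k) hpt

theorem not_bounded (hd : 1 ≤ d) {q : ℝ} (hq : 1 ≤ q) :
    ¬ ∃ C : ℝ≥0, ∀ f g : EuclideanSpace ℝ (Fin d) → ℝ,
      ContDiff ℝ ∞ f → HasCompactSupport f → ContDiff ℝ ∞ g → HasCompactSupport g →
        eLpNorm (lacMax f g) (ENNReal.ofReal (q / (q + 1))) volume ≤
          C * eLpNorm f 1 volume * eLpNorm g (ENNReal.ofReal q) volume := by
  rintro ⟨C, hC⟩
  obtain ⟨c, hc0, hc⟩ := band_lower hd
  have hq0 : 0 < q := by linarith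
  have hr0 : 0 < q / (q + 1) := by positivity
  set B : ℝ≥0∞ := ENNReal.ofReal (((4 : ℝ) ^ d) ^ (1 / q)) *
    volume (ball (0 : EuclideanSpace ℝ (Fin d)) 1) ^ (1 / q) with hB
  have hBtop : B ≠ ⊤ := ENNReal.mul_ne_top ENNReal.ofReal_ne_top
    (ENNReal.rpow_ne_top_of_nonneg (by positivity) measure_ball_lt_top.ne)
  set F : ℝ≥0∞ := eLpNorm (bump d 1 one_pos) 1 volume with hF
  have hFtop : F ≠ ⊤ := by
    have := eLpNorm_bump_le (d := d) 1 one_pos (q := 1) le_rfl
    rw [ENNReal.ofReal_one] at this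
    exact ne_top_of_le_ne_top (ENNReal.mul_ne_top ENNReal.ofReal_ne_top
      (ENNReal.rpow_ne_top_of_nonneg (by positivity) measure_ball_lt_top.ne)) this
  set κ : ℝ≥0∞ := (c ^ (q / (q + 1)) * volume (ann d)) ^ (1 / (q / (q + 1))) with hκ
  have hκ0 : κ ≠ 0 := by
    have h1 : c ^ (q / (q + 1)) ≠ 0 := by
      rw [Ne, ENNReal.rpow_eq_zero_iff_of_pos hr0]; exact hc0
    rw [hκ, Ne, ENNReal.rpow_eq_zero_iff_of_pos (by positivity)]
    exact mul_ne_zero h1 (vol_ann_pos hd)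
  have main : ∀ N : ℕ, 1 ≤ N → (N : ℝ≥0∞) ^ (1 / q) * κ ≤ C * F * B := by
    intro N hN
    have hN0 : (N : ℝ≥0∞) ≠ 0 := by exact_mod_cast (by omega : N ≠ 0)
    have hNt : (N : ℝ≥0∞) ≠ ⊤ := ENNReal.natCast_ne_top N
    have h1 := hC (bump d 1 one_pos) (gfun d q N) (ContDiffBump.contDiff _)
      (ContDiffBump.hasCompactSupport _) (gfun_contDiff q N) (gfun_hasCompactSupport q N)
    have h2 := eLpNorm_gfun_le (d := d) hq N
    have h3 := lintegral_lacMax_ge hd hq hc N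
    rw [eLpNorm_eq_lintegral_rpow_enorm_toReal (by simpa using hr0) ENNReal.ofReal_ne_top,
      ENNReal.toReal_ofReal hr0.le] at h1
    simp only [enorm_eq_self] at h1
    have h4 := (ENNReal.rpow_le_rpow h3 (by positivity : 0 ≤ 1 / (q / (q + 1)))).trans h1
    rw [ENNReal.mul_rpow_of_nonneg _ _ (by positivity)] at h4
    have e : 1 / (q / (q + 1)) = 1 + 1 / q := by field_simp
    have h5 : (N : ℝ≥0∞) ^ (1 / (q / (q + 1))) = N * (N : ℝ≥0∞) ^ (1 / q) := by
      rw [e, ENNReal.rpow_add _ _ hN0 hNt, ENNReal.rpow_one]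
    rw [h5, mul_assoc] at h4
    have h6 : (C : ℝ≥0∞) * F * eLpNorm (gfun d q N) (ENNReal.ofReal q) volume ≤
        N * (C * F * B) := by
      calc (C : ℝ≥0∞) * F * eLpNorm (gfun d q N) (ENNReal.ofReal q) volume
          ≤ C * F * (N * B) := by gcongr
        _ = N * (C * F * B) := by ring
    exact (ENNReal.mul_le_mul_iff_right hN0 hNt).1 (h4.trans h6)
  have hK : (C : ℝ≥0∞) * F * B ≠ ⊤ :=
    ENNReal.mul_ne_top (ENNReal.mul_ne_top ENNReal.coe_ne_top hFtop) hBtop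
  have hL : (((C : ℝ≥0∞) * F * B) / κ) ^ q ≠ ⊤ :=
    ENNReal.rpow_ne_top_of_nonneg hq0.le (ENNReal.div_ne_top hK hκ0)
  obtain ⟨N, hN⟩ := ENNReal.exists_nat_gt hL
  have hN1 : 1 ≤ N := by
    rcases Nat.eq_zero_or_pos N with h | h
    · simp [h] at hN
    · exact h
  have h7 : (N : ℝ≥0∞) ^ (1 / q) ≤ ((C : ℝ≥0∞) * F * B) / κ :=
    (ENNReal.le_div_iff_mul_le (Or.inl hκ0) (Or.inr hK)).2 (main N hN1)
  have h8 := ENNReal.rpow_le_rpow h7 hq0.le
  rw [← ENNReal.rpow_mul, one_div_mul_cancel hq0.ne', ENNReal.rpow_one] at h8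
  exact absurd hN (not_lt.2 h8)

lemma lpNorm_enorm {q : ℝ} (hq : 0 < q) (f : EuclideanSpace ℝ (Fin d) → ℝ) :
    lpNorm q (fun x => ‖f x‖ₑ) = eLpNorm f (ENNReal.ofReal q) volume := by
  rw [eLpNorm_eq_lintegral_rpow_enorm_toReal (by simpa using hq) ENNReal.ofReal_ne_top,
    ENNReal.toReal_ofReal hq.le, lpNorm]

lemma lpNorm_eq {q : ℝ} (hq : 0 < q) (F : EuclideanSpace ℝ (Fin d) → ℝ≥0∞) :
    lpNorm q F = eLpNorm F (ENNReal.ofReal q) volume := by
  rw [eLpNorm_eq_lintegral_rpow_enorm_toReal (by simpa using hq) ENNReal.ofReal_ne_top,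
    ENNReal.toReal_ofReal hq.le, lpNorm]
  simp only [enorm_eq_self]

theorem not_bounded' (hd : 1 ≤ d) {q : ℝ} (hq : 1 ≤ q) :
    ¬ ∃ C : ℝ≥0, ∀ f g : EuclideanSpace ℝ (Fin d) → ℝ, IsTest f → IsTest g →
      lpNorm (q / (q + 1)) (lacMax f g) ≤
        C * lpNorm 1 (fun x => ‖f x‖ₑ) * lpNorm q (fun x => ‖g x‖ₑ) := by
  rintro ⟨C, hC⟩
  have hq0 : 0 < q := by linarith
  refine not_bounded hd hq ⟨C, fun f g h1 h2 h3 h4 => ?_⟩
  have := hC f g ⟨h1, h2⟩ ⟨h3, h4⟩
  rwa [lpNorm_eq (by positivity), lpNorm_enorm one_pos, lpNorm_enorm hq0,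
    ENNReal.ofReal_one] at this

end Pool.Agent.P.MP_f72ff1_an
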